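import Pool.Agent.H59.L.S8.Y401.RG.T2b

/-!
# Project RG: bounds for the transport, S_T2
-/

set_option autoImplicit false

open MeasureTheory Set Filter Topology

namespace Pool.Agent.Y401.RG

open Pool.Agent.Y506.RG

/-- constant for the derivative -/
noncomputable def cD (C : ℝ) : ℝ := C * cK C * (1 + cK C)

variable {f : ℝ → ℝ} {C : ℝ}

theorem cD_ge (hC : 1 ≤ C) : C * cK C ≤ cD C ∧ 1 ≤ cD C := by
  have hK := one_le_cK hC
  have h1 : 1 ≤ C * cK C := one_le_mul_of_one_le_of_one_le hC hK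
  unfold cD
  constructor <;> nlinarith

/-- the numerator, in the two forms, and `Da` -/
theorem Da_eq (_hf : ND f) {a : ℝ} (h : Tilt f C a) (x : ℝ) :
    Da f x a = (∫ s in Iic x, ((∫ s, s * (f s * Real.exp (a * s))) / Z0 f a - s) * (f s * Real.exp (a * s)))
      / (f x * Real.exp (a * x)) ∧
    Da f x a = (∫ s in Ioi x, (s - (∫ s, s * (f s * Real.exp (a * s))) / Z0 f a) * (f s * Real.exp (a * s)))
      / (f x * Real.exp (a * x)) := by
  have hz : (∫ s, f s * Real.exp (a * s)) ≠ 0 := by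
    have := h.z1
    unfold Z0 at this
    linarith
  obtain ⟨e1, e2⟩ := num_eq h.i0 h.i1 hz x
  have e3 : Z1 f a = ∫ s, s * (f s * Real.exp (a * s)) := by
    unfold Z1; congr 1; ext s; ring
  have e4 : N1 f x a = ∫ s in Iic x, s * (f s * Real.exp (a * s)) := by
    unfold N1; congr 1; ext s; ring
  have e5 : Da f x a = (∫ s in Iic x, ((∫ s, s * (f s * Real.exp (a * s))) / Z0 f a - s) * (f s * Real.exp (a * s)))
      / (f x * Real.exp (a * x)) := by
    unfold Da
    rw [e3, e4]
    unfold Z0 N0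
    rw [e1]
  refine ⟨e5, ?_⟩
  rw [e5]
  unfold Z0
  rw [e2]

theorem Da_pos_low (hf : ND f) (hO : OB C f) {a : ℝ} (h : Tilt f C a) (x : ℝ) :
    min (∫ s in Iic x, f s * Real.exp (a * s)) (∫ s in Ioi x, f s * Real.exp (a * s)) ≤
      8 * C * cK C * (Da f x a * (f x * Real.exp (a * x))) := by
  have hC := hO.one_le
  have hC0 : 0 < C := by linarith
  have hpos : ∀ s, 0 < f s * Real.exp (a * s) := fun s => mul_pos (hf.pos s) (Real.exp_pos _)
  have hz : (∫ s, f s * Real.exp (a * s)) ≠ 0 := by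
    have := h.z1
    unfold Z0 at this
    linarith
  obtain ⟨p1, p2⟩ := parts hpos h.i0 h.i1 hz
  have hlow := h.low
  unfold Z0 at hlow
  have hz2 := h.z2
  unfold Z0 at hz2
  have hz1 := h.z1
  unfold Z0 at hz1
  obtain ⟨d1, d2⟩ := Da_eq hf h x
  unfold Z0 at d1 d2
  set m := (∫ s, s * (f s * Real.exp (a * s))) / (∫ s, f s * Real.exp (a * s)) with hm
  have hx0 := (hpos x).ne'
  have key : ∀ (S B I : ℝ), 0 ≤ S → 2 * B = ∫ s, |s - m| * (f s * Real.exp (a * s)) →
      S * B ≤ 2 * (∫ s, f s * Real.exp (a * s)) * I → S ≤ 8 * C * cK C * I := by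
    intro S B I hS hB hSB
    have hB4 : 1 / (4 * C) ≤ B := by
      have : 1 / (4 * C) = (1 / (2 * C)) / 2 := by field_simp; ring
      rw [this]; linarith
    have hB0 : 0 < B := lt_of_lt_of_le (by positivity) hB4
    have hI0 : 0 ≤ I := by
      by_contra hcon
      push Not at hcon
      have h1 : 2 * (∫ s, f s * Real.exp (a * s)) * I < 0 := by
        apply mul_neg_of_pos_of_neg _ hcon
        linarith
      have h2 : 0 ≤ S * B := mul_nonneg hS hB0.le
      linarith
    have h1 : S * (1 / (4 * C)) ≤ 2 * cK C * I := by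
      calc S * (1 / (4 * C)) ≤ S * B := mul_le_mul_of_nonneg_left hB4 hS
        _ ≤ 2 * (∫ s, f s * Real.exp (a * s)) * I := hSB
        _ ≤ 2 * cK C * I := by
          apply mul_le_mul_of_nonneg_right _ hI0
          linarith
    calc S = 4 * C * (S * (1 / (4 * C))) := by field_simp
      _ ≤ 4 * C * (2 * cK C * I) := mul_le_mul_of_nonneg_left h1 (by positivity)
      _ = 8 * C * cK C * I := by ring
  rcases le_total m x with hx | hx
  · refine (min_le_right _ _).trans ?_
    rw [d2, div_mul_cancel₀ _ hx0]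
    exact key _ _ _ (setIntegral_nonneg measurableSet_Ioi fun s _ => (hpos s).le) p1
      (low_bd hpos h.i0 h.i1 m x hx)
  · refine (min_le_left _ _).trans ?_
    rw [d1, div_mul_cancel₀ _ hx0]
    exact key _ _ _ (setIntegral_nonneg measurableSet_Iic fun s _ => (hpos s).le) p2
      (low_bd' hpos h.i0 h.i1 m x hx)

theorem Da_pos (hf : ND f) (hO : OB C f) {a : ℝ} (h : Tilt f C a) (x : ℝ) : 0 < Da f x a := by
  have hC := hO.one_le
  have hC0 : 0 < C := by linarith
  have hK := one_le_cK hC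
  have hpos : ∀ s, 0 < f s * Real.exp (a * s) := fun s => mul_pos (hf.pos s) (Real.exp_pos _)
  have h1 := Da_pos_low hf hO h x
  have h2 : 0 < min (∫ s in Iic x, f s * Real.exp (a * s)) (∫ s in Ioi x, f s * Real.exp (a * s)) :=
    lt_min (pos_of_pos_on hpos h.i0 (by simp)) (pos_of_pos_on hpos h.i0 (by simp))
  have h3 : 0 < 8 * C * cK C * (Da f x a * (f x * Real.exp (a * x))) := h2.trans_le h1
  have h4 : 0 < Da f x a * (f x * Real.exp (a * x)) := by
    by_contra hcon
    push Not at hcon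
    have : 8 * C * cK C * (Da f x a * (f x * Real.exp (a * x))) ≤ 0 :=
      mul_nonpos_of_nonneg_of_nonpos (by positivity) hcon
    linarith
  exact (pos_iff_pos_of_mul_pos h4).2 (hpos x)

theorem Da_le (hf : ND f) (hO : OB C f) {a : ℝ} (h : Tilt f C a) (x : ℝ) :
    Da f x a ≤ cD C * (1 + |x|) := by
  have hC := hO.one_le
  have hC0 : 0 < C := by linarith
  have hK := one_le_cK hC
  have hK0 : 0 < cK C := by linarith
  have hpos : ∀ s, 0 < f s * Real.exp (a * s) := fun s => mul_pos (hf.pos s) (Real.exp_pos _)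
  obtain ⟨d1, d2⟩ := Da_eq hf h x
  set m := (∫ s, s * (f s * Real.exp (a * s))) / Z0 f a with hm
  have hz0 : 0 < Z0 f a := by linarith [h.z1]
  have hmK : |m| ≤ cK C := by
    rw [hm, abs_div, abs_of_pos hz0, div_le_iff₀ hz0]
    calc _ ≤ cK C := h.m1
      _ = cK C * 1 := (mul_one _).symm
      _ ≤ cK C * Z0 f a := mul_le_mul_of_nonneg_left h.z1 hK0.le
  have hxm : |x - m| ≤ |x| + cK C := (abs_sub x m).trans (by linarith)
  have hg0 : (f 0 * Real.exp (a * 0))⁻¹ ≤ C := by
    rw [mul_zero, Real.exp_zero, mul_one]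
    have h0 := hO.zero
    rw [inv_le_comm₀ (hf.pos 0) hC0]
    rwa [one_div] at h0
  have hgx := hpos x
  have key : ∀ (I M0 M1 : ℝ), M1 ≤ cK C → 0 ≤ M0 → M0 ≤ cK C →
      I ≤ (f x * Real.exp (a * x)) / (f 0 * Real.exp (a * 0)) * (M1 + |x - m| * M0) →
      I / (f x * Real.exp (a * x)) ≤ cD C * (1 + |x|) := by
    intro I M0 M1 h1 h0 h2 hI
    rw [div_le_iff₀ hgx]
    have h3 : M1 + |x - m| * M0 ≤ cK C * (1 + cK C) * (1 + |x|) := by
      have e1 : |x - m| * M0 ≤ (|x| + cK C) * cK C :=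
        mul_le_mul hxm h2 h0 (by positivity)
      have e2 : 0 ≤ |x| := abs_nonneg x
      nlinarith [mul_nonneg hK0.le hK0.le, mul_nonneg (mul_nonneg hK0.le hK0.le) e2]
    have h4 : 0 ≤ cK C * (1 + cK C) * (1 + |x|) := by positivity
    calc I ≤ (f x * Real.exp (a * x)) / (f 0 * Real.exp (a * 0)) * (M1 + |x - m| * M0) := hI
      _ ≤ (f x * Real.exp (a * x)) / (f 0 * Real.exp (a * 0)) * (cK C * (1 + cK C) * (1 + |x|)) := by
        apply mul_le_mul_of_nonneg_left h3
        exact div_nonneg hgx.le (hpos 0).le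
      _ = (f x * Real.exp (a * x)) * ((f 0 * Real.exp (a * 0))⁻¹ * (cK C * (1 + cK C) * (1 + |x|))) := by
        rw [div_eq_mul_inv]; ring
      _ ≤ (f x * Real.exp (a * x)) * (C * (cK C * (1 + cK C) * (1 + |x|))) := by
        apply mul_le_mul_of_nonneg_left _ hgx.le
        exact mul_le_mul_of_nonneg_right hg0 h4
      _ = cD C * (1 + |x|) * (f x * Real.exp (a * x)) := by unfold cD; ring
  have hM0 : ∀ S : Set ℝ, 0 ≤ ∫ s in S, f s * Real.exp (a * s) ∧
      ∫ s in S, f s * Real.exp (a * s) ≤ cK C := by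
    intro S
    refine ⟨integral_nonneg fun s => (hpos s).le, ?_⟩
    refine le_trans (setIntegral_le_integral h.i0 (Eventually.of_forall fun s => (hpos s).le)) h.z2
  rcases le_total 0 x with hx | hx
  · rw [d2]
    apply key _ _ _ h.r1 (hM0 (Ioi 0)).1 (hM0 (Ioi 0)).2
    apply right_bd hpos _ h.i0 h.i1 x m hx
    intro y r hy hr
    have := lcm2 hf a 1 y r hy hr
    simpa only [one_mul] using this
  · rw [d1]
    apply key _ _ _ h.l1 (hM0 (Iic 0)).1 (hM0 (Iic 0)).2
    apply left_bd hpos _ h.i0 h.i1 x m hx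
    intro y r hy hr
    have := lcm2 hf a (-1) y r hy hr
    simpa only [neg_one_mul] using this

/-- Gronwall, one-sided -/
theorem gron {y y' : ℝ → ℝ} {l K : ℝ} (hK : 1 ≤ K) (hl : K * l ≤ 1)
    (hd : ∀ a, 0 ≤ a → a < l → HasDerivAt y (y' a) a)
    (hb : ∀ a, 0 ≤ a → a < l → |y' a| ≤ K * (1 + |y a|)) (a : ℝ) (ha0 : 0 ≤ a) (ha : a < l) :
    |y a - y 0| ≤ 3 * K * a * (1 + |y 0|) := by
  have hK0 : 0 < K := by linarith
  have h := norm_le_gronwallBound_of_norm_deriv_right_le (f := fun b => y b - y 0) (f' := y')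
    (δ := 0) (K := K) (ε := K * (1 + |y 0|)) (a := 0) (b := a)
    (by
      intro b hb'
      exact ((hd b hb'.1 (hb'.2.trans_lt ha)).continuousAt.sub continuousAt_const).continuousWithinAt)
    (by
      intro b hb'
      exact ((hd b hb'.1 (hb'.2.trans ha)).sub_const (y 0)).hasDerivWithinAt)
    (by simp)
    (by
      intro b hb'
      rw [Real.norm_eq_abs, Real.norm_eq_abs]
      have h1 := hb b hb'.1 (hb'.2.trans ha)
      have h2 : |y b| ≤ |y b - y 0| + |y 0| := by
        have := abs_add_le (y b - y 0) (y 0)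
        simpa using this
      nlinarith)
    a ⟨ha0, le_rfl⟩
  rw [gronwallBound_of_K_ne_0 hK0.ne', Real.norm_eq_abs] at h
  simp only [zero_mul, zero_add, sub_zero] at h
  have e1 : K * (1 + |y 0|) / K = 1 + |y 0| := by field_simp
  rw [e1] at h
  have hKa : K * a ≤ 1 := (mul_le_mul_of_nonneg_left ha.le hK0.le).trans hl
  have hKa0 : 0 ≤ K * a := mul_nonneg hK0.le ha0
  have e2 : Real.exp (K * a) - 1 ≤ 3 * (K * a) := by
    have h3 := abs_exp_sub_one (K * a)
    rw [abs_of_nonneg hKa0] at h3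
    have h4 : Real.exp (K * a) ≤ 3 := by
      refine (Real.exp_le_exp.2 hKa).trans ?_
      exact Real.exp_one_lt_three.le
    have h5 := le_abs_self (Real.exp (K * a) - 1)
    nlinarith
  calc |y a - y 0| ≤ (1 + |y 0|) * (Real.exp (K * a) - 1) := h
    _ ≤ (1 + |y 0|) * (3 * (K * a)) := mul_le_mul_of_nonneg_left e2 (by positivity)
    _ = 3 * K * a * (1 + |y 0|) := by ring

/-- Gronwall, two-sided -/
theorem gron2 {y y' : ℝ → ℝ} {l K : ℝ} (hK : 1 ≤ K) (hl : K * l ≤ 1)
    (hd : ∀ a, |a| < l → HasDerivAt y (y' a) a)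
    (hb : ∀ a, |a| < l → |y' a| ≤ K * (1 + |y a|)) (a : ℝ) (ha : |a| < l) :
    |y a - y 0| ≤ 3 * K * |a| * (1 + |y 0|) := by
  rcases le_total 0 a with h | h
  · rw [abs_of_nonneg h] at ha ⊢
    exact gron hK hl (fun b hb0 hbl => hd b (by rwa [abs_of_nonneg hb0]))
      (fun b hb0 hbl => hb b (by rwa [abs_of_nonneg hb0])) a h ha
  · rw [abs_of_nonpos h] at ha ⊢
    have := gron (y := fun b => y (-b)) (y' := fun b => -y' (-b)) hK hl
      (fun b hb0 hbl => by
        have h1 := hd (-b) (by rwa [abs_neg, abs_of_nonneg hb0])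
        have h2 : HasDerivAt (fun b : ℝ => y (-b)) (y' (-b) * (-1)) b :=
          HasDerivAt.comp b h1 (hasDerivAt_neg b)
        rwa [mul_neg_one] at h2)
      (fun b hb0 hbl => by
        rw [abs_neg]
        exact hb (-b) (by rwa [abs_neg, abs_of_nonneg hb0])) (-a) (by linarith) ha
    simpa using this

theorem T_zero (hf : ND f) {l : ℝ} (hl : 0 < l) {T : ℝ → ℝ → ℝ} (hT : TR f l T) (t : ℝ) : T t 0 = t := by
  have h := hT.eq t 0 (by simpa using hl)
  have e1 : ∀ x, N0 f x 0 = ∫ s in Iic x, f s := by intro x; simp [N0]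
  have e2 : Z0 f 0 = 1 := by simp [Z0, hf.mass]
  rw [e2, one_mul, e1, e1] at h
  have key : ∀ x y : ℝ, x < y → ∫ s in Iic x, f s < ∫ s in Iic y, f s := by
    intro x y hxy
    have h1 := intervalIntegral.integral_Iic_sub_Iic (a := x) (b := y) (f := f) (μ := volume)
      hf.int0.integrableOn hf.int0.integrableOn
    have h2 : 0 < ∫ s in x..y, f s :=
      intervalIntegral.intervalIntegral_pos_of_pos (hf.int0.intervalIntegrable) hf.pos hxy
    linarith
  rcases lt_trichotomy (T t 0) t with h1 | h1 | h1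
  · exact absurd h (key _ _ h1).ne
  · exact h1
  · exact absurd h (key _ _ h1).ne'

theorem t2 : S_T2 := by
  intro C l0 hl0
  by_cases hC : 1 ≤ C
  swap
  · exact ⟨1, 1, one_pos, le_rfl, fun f _ hO => absurd hO.one_le hC⟩
  have hC0 : 0 < C := by linarith
  have hK := one_le_cK hC
  have hK0 : 0 < cK C := by linarith
  obtain ⟨hD1, hD2⟩ := cD_ge hC
  have hD0 : 0 < cD C := by linarith
  refine ⟨min l0 (1 / (6 * cD C)), 8 * cD C, lt_min hl0 (by positivity), by linarith, ?_⟩
  intro f hf hO _ T hT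
  set l := min l0 (1 / (6 * cD C)) with hldef
  have hl1 : l ≤ l0 := min_le_left _ _
  have hl2 : l ≤ 1 / (6 * cD C) := min_le_right _ _
  have hlC : ∀ a, |a| < l → |a| ≤ 1 / (4 * C * cK C) := by
    intro a ha
    refine (ha.le.trans hl2).trans ?_
    apply one_div_le_one_div_of_le (by positivity)
    nlinarith
  have htilt : ∀ a, |a| < l → Tilt f C a := fun a ha => tilt hf hO (hlC a ha)
  have hT0 : ∀ t, T t 0 = t := fun t => T_zero hf hl0 hT t
  -- derivative in `a`
  have hder : ∀ t a, |a| < l → HasDerivAt (fun b => T t b) (Da f (T t a) a) a := by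
    intro t a ha
    have h1 := hT.der t a (ha.trans_le hl1)
    have h2 : HasDerivAt (fun b : ℝ => (t, b)) ((0 : ℝ), (1 : ℝ)) a :=
      (hasDerivAt_const a t).prodMk (hasDerivAt_id a)
    have h3 := h1.comp_hasDerivAt a h2
    have h4 : ((Z0 f a * f t / (f (T t a) * Real.exp (a * T t a))) • ContinuousLinearMap.fst ℝ ℝ ℝ +
      (Da f (T t a) a) • ContinuousLinearMap.snd ℝ ℝ ℝ) ((0 : ℝ), (1 : ℝ)) = Da f (T t a) a := by simp
    rw [h4] at h3
    exact h3
  have hDb : ∀ t a, |a| < l → |Da f (T t a) a| ≤ cD C * (1 + |T t a|) := by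
    intro t a ha
    rw [abs_of_pos (Da_pos hf hO (htilt a ha) _)]
    exact Da_le hf hO (htilt a ha) _
  have hlK : cD C * l ≤ 1 := by
    calc cD C * l ≤ cD C * (1 / (6 * cD C)) := mul_le_mul_of_nonneg_left hl2 hD0.le
      _ = 1 / 6 := by field_simp
      _ ≤ 1 := by norm_num
  have hdisp : ∀ t a, |a| < l → |T t a - t| ≤ 3 * cD C * |a| * (1 + |t|) := by
    intro t a ha
    have := gron2 (y := fun b => T t b) hD2 hlK (hder t) (hDb t) a ha
    simpa only [hT0] using this
  have hppos : ∀ t a, |a| < l → 0 < Z0 f a * f t / (f (T t a) * Real.exp (a * T t a)) := by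
    intro t a ha
    have h1 := (htilt a ha).z1
    have h2 := hf.pos t
    have h3 := hf.pos (T t a)
    positivity
  refine ⟨fun t a => Z0 f a * f t / (f (T t a) * Real.exp (a * T t a)),
    fun t a => Da f (T t a) a / (Z0 f a * f t / (f (T t a) * Real.exp (a * T t a))), ?_⟩
  refine ⟨?_, hppos, ?_, ?_, ?_, ?_, ?_⟩
  · intro t a ha
    have h1 := hT.der t a (ha.trans_le hl1)
    have e : Z0 f a * f t / (f (T t a) * Real.exp (a * T t a)) *
        (Da f (T t a) a / (Z0 f a * f t / (f (T t a) * Real.exp (a * T t a)))) = Da f (T t a) a :=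
      mul_div_cancel₀ _ (hppos t a ha).ne'
    simp only [e]
    exact h1
  · intro t a ha
    exact div_pos (Da_pos hf hO (htilt a ha) _) (hppos t a ha)
  · intro t a ha
    have h1 := (htilt a ha).z1
    have h2 := hf.pos t
    have h3 := hf.pos (T t a)
    have e : f (T t a) * (Z0 f a * f t / (f (T t a) * Real.exp (a * T t a))) =
        Z0 f a * (f t * Real.exp (-(a * T t a))) := by
      rw [Real.exp_neg]
      field_simp
    show f t * Real.exp (-(a * T t a)) ≤ f (T t a) * (Z0 f a * f t / (f (T t a) * Real.exp (a * T t a)))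
    rw [e]
    have h4 : 0 < f t * Real.exp (-(a * T t a)) := mul_pos h2 (Real.exp_pos _)
    nlinarith
  · intro t a ha
    refine (hdisp t a ha).trans ?_
    apply mul_le_mul_of_nonneg_right _ (by positivity)
    apply mul_le_mul_of_nonneg_right _ (abs_nonneg a)
    linarith
  · intro t a ha
    have h1 := hdisp t a ha
    have h2 : 3 * cD C * |a| ≤ 1 / 2 := by
      calc 3 * cD C * |a| ≤ 3 * cD C * (1 / (6 * cD C)) :=
            mul_le_mul_of_nonneg_left (ha.le.trans hl2) (by positivity)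
        _ = 1 / 2 := by field_simp; norm_num
    have h3 : |t| ≤ |T t a| + |T t a - t| := by
      have := abs_sub (T t a) (T t a - t)
      simpa using this
    have h5 : 0 ≤ 3 * cD C * |a| := by positivity
    have h4 : 1 + |t| ≤ 2 * (1 + |T t a|) := by
      have h6 : |T t a - t| ≤ 1 / 2 * (1 + |t|) :=
        h1.trans (mul_le_mul_of_nonneg_right h2 (by positivity))
      linarith
    calc |T t a - t| ≤ 3 * cD C * |a| * (1 + |t|) := h1
      _ ≤ 3 * cD C * |a| * (2 * (1 + |T t a|)) := mul_le_mul_of_nonneg_left h4 h5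
      _ = 6 * cD C * |a| * (1 + |T t a|) := by ring
      _ ≤ 8 * cD C * |a| * (1 + |T t a|) := by
        apply mul_le_mul_of_nonneg_right _ (by positivity)
        apply mul_le_mul_of_nonneg_right _ (abs_nonneg a)
        linarith
  · intro t a ha
    have ht := htilt a ha
    have hz1 := ht.z1
    have hz0 : 0 < Z0 f a := by linarith
    have hft := hf.pos t
    have hfT := hf.pos (T t a)
    have hgT : 0 < f (T t a) * Real.exp (a * T t a) := mul_pos hfT (Real.exp_pos _)
    have hD := Da_pos hf hO ht (T t a)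
    -- the two masses
    have e0 : ∫ s in Iic (T t a), f s * Real.exp (a * s) = Z0 f a * ∫ s in Iic t, f s := by
      have h1 := hT.eq t a (ha.trans_le hl1)
      unfold N0 at h1
      simpa using h1
    have e1 : ∫ s in Ioi (T t a), f s * Real.exp (a * s) = Z0 f a * ∫ s in Ioi t, f s := by
      have h1 := intervalIntegral.integral_Iic_add_Ioi (b := T t a)
        (f := fun s => f s * Real.exp (a * s)) (μ := volume) ht.i0.integrableOn ht.i0.integrableOn
      have h2 := intervalIntegral.integral_Iic_add_Ioi (b := t) (f := f) (μ := volume)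
        hf.int0.integrableOn hf.int0.integrableOn
      rw [hf.mass] at h2
      rw [e0] at h1
      have h3 : ∫ s, f s * Real.exp (a * s) = Z0 f a := rfl
      rw [h3] at h1
      have h4 : ∫ s in Iic t, f s = 1 - ∫ s in Ioi t, f s := by linarith
      rw [h4] at h1
      linarith
    have hmin := Da_pos_low hf hO ht (T t a)
    rw [e0, e1, ← mul_min_of_nonneg _ _ hz0.le] at hmin
    -- conclusion
    show kf f t ≤ 8 * cD C * (Da f (T t a) a / (Z0 f a * f t / (f (T t a) * Real.exp (a * T t a))))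
    unfold kf
    rw [div_le_iff₀ hft]
    have e2 : 8 * cD C * (Da f (T t a) a / (Z0 f a * f t / (f (T t a) * Real.exp (a * T t a)))) * f t =
        8 * cD C * (Da f (T t a) a * (f (T t a) * Real.exp (a * T t a))) / Z0 f a := by
      field_simp
    rw [e2, le_div_iff₀ hz0, mul_comm]
    refine hmin.trans ?_
    apply mul_le_mul_of_nonneg_right _ (mul_pos hD hgT).le
    nlinarith

end Pool.Agent.Y401.RG

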