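import Pool.Agent.H59.L.S8.Y401.RG.T2a

/-!
# Project RG: bounds for the transport, part 2 (uniform bounds for the tilts)
-/

set_option autoImplicit false

open MeasureTheory Set Filter Topology

namespace Pool.Agent.Y401.RG

open Pool.Agent.Y506.RG

/-- the constant bounding the tilted moments -/
noncomputable def cK (C : ℝ) : ℝ := 384 * C ^ 5 * Real.pi

theorem one_le_cK {C : ℝ} (hC : 1 ≤ C) : 1 ≤ cK C := by
  have h1 : 1 ≤ C ^ 5 := one_le_pow₀ hC
  have h2 : (3 : ℝ) < Real.pi := Real.pi_gt_three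
  unfold cK
  nlinarith

variable {f : ℝ → ℝ} {C : ℝ}

theorem lcm1 (hf : ND f) (w t : ℝ) (h0 : 0 ≤ t) (h1 : t ≤ 1) :
    f 0 * f w ≤ f (t * w) * f ((1 - t) * w) := by
  rcases h0.eq_or_lt with h | h
  · rw [← h]; simp
  rcases h1.eq_or_lt with h' | h'
  · rw [h']; simp [mul_comm]
  have e1 := hf.lc 0 w t h h'
  have e2 := hf.lc 0 w (1 - t) (by linarith) (by linarith)
  have p0 := hf.pos 0
  have pw := hf.pos w
  have e3 := mul_le_mul e1 e2 (by positivity) (hf.pos _).le
  have e4 : f 0 ^ (1 - t) * f w ^ t * (f 0 ^ (1 - (1 - t)) * f w ^ (1 - t)) = f 0 * f w := by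
    have : f 0 ^ (1 - t) * f w ^ t * (f 0 ^ (1 - (1 - t)) * f w ^ (1 - t)) =
        (f 0 ^ (1 - t) * f 0 ^ (1 - (1 - t))) * (f w ^ t * f w ^ (1 - t)) := by ring
    rw [this, ← Real.rpow_add p0, ← Real.rpow_add pw]
    rw [show (1 : ℝ) - t + (1 - (1 - t)) = 1 by ring, show t + (1 - t) = 1 by ring,
      Real.rpow_one, Real.rpow_one]
  rw [e4] at e3
  simpa only [mul_zero, zero_add] using e3

/-- multiplicative form, for the tilted density; `ε` is a sign -/
theorem lcm2 (hf : ND f) (a ε : ℝ) (y r : ℝ) (hy : 0 ≤ y) (hr : 0 ≤ r) :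
    (f 0 * Real.exp (a * 0)) * (f (ε * (y + r)) * Real.exp (a * (ε * (y + r)))) ≤
      (f (ε * y) * Real.exp (a * (ε * y))) * (f (ε * r) * Real.exp (a * (ε * r))) := by
  have key : f 0 * f (ε * (y + r)) ≤ f (ε * y) * f (ε * r) := by
    rcases (add_nonneg hy hr).eq_or_lt with h | h
    · have hy0 : y = 0 := by linarith
      have hr0 : r = 0 := by linarith
      subst hy0; subst hr0; simp
    · have h1 := lcm1 hf (ε * (y + r)) (y / (y + r)) (div_nonneg hy h.le)
        (div_le_one_of_le₀ (by linarith) h.le)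
      have e1 : y / (y + r) * (ε * (y + r)) = ε * y := by field_simp
      have e2 : (1 - y / (y + r)) * (ε * (y + r)) = ε * r := by field_simp; ring
      rwa [e1, e2] at h1
  have e3 : Real.exp (a * (ε * (y + r))) = Real.exp (a * (ε * y)) * Real.exp (a * (ε * r)) := by
    rw [← Real.exp_add]; congr 1; ring
  rw [e3, mul_zero, Real.exp_zero, mul_one]
  calc f 0 * (f (ε * (y + r)) * (Real.exp (a * (ε * y)) * Real.exp (a * (ε * r))))
      = (f 0 * f (ε * (y + r))) * (Real.exp (a * (ε * y)) * Real.exp (a * (ε * r))) := by ring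
    _ ≤ (f (ε * y) * f (ε * r)) * (Real.exp (a * (ε * y)) * Real.exp (a * (ε * r))) :=
        mul_le_mul_of_nonneg_right key (by positivity)
    _ = _ := by ring

theorem poly_exp (hC : 1 ≤ C) (s : ℝ) :
    (1 + s ^ 2) * (C * Real.exp (-|s| / (2 * C))) ≤ 384 * C ^ 5 * (1 + s ^ 2)⁻¹ := by
  have hC0 : 0 < C := by linarith
  set u := |s| / (2 * C) with hu
  have hu0 : 0 ≤ u := by positivity
  have hs : s ^ 2 = (2 * C) ^ 2 * u ^ 2 := by
    rw [hu, ← sq_abs s]; field_simp
  have h1 : 1 + u ^ 2 / 2 + u ^ 4 / 24 ≤ Real.exp u := by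
    have h := Real.sum_le_exp_of_nonneg hu0 5
    simp only [Finset.sum_range_succ, Finset.sum_range_zero, Nat.factorial] at h
    norm_num at h
    have h3 : 0 ≤ u ^ 3 := by positivity
    linarith
  have hpos : 0 < 1 + s ^ 2 := by positivity
  have he : Real.exp (-|s| / (2 * C)) = (Real.exp u)⁻¹ := by
    rw [← Real.exp_neg]; congr 1; rw [hu]; ring
  rw [he, ← div_eq_mul_inv (384 * C ^ 5), le_div_iff₀ hpos, ← div_eq_mul_inv]
  have hepos : 0 < Real.exp u := Real.exp_pos u
  have h2 : (1 + s ^ 2) ^ 2 ≤ 384 * C ^ 4 * Real.exp u := by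
    have h4 : (1 + s ^ 2) ^ 2 ≤ 384 * C ^ 4 * (1 + u ^ 2 / 2 + u ^ 4 / 24) := by
      rw [hs]
      have hC2 : 1 ≤ C ^ 2 := one_le_pow₀ hC
      have hC4 : 1 ≤ C ^ 4 := one_le_pow₀ hC
      have e1 : C ^ 2 * u ^ 2 ≤ C ^ 4 * u ^ 2 := by
        have : C ^ 2 ≤ C ^ 4 := pow_le_pow_right₀ hC (by norm_num)
        exact mul_le_mul_of_nonneg_right this (by positivity)
      have e2 : (1 + (2 * C) ^ 2 * u ^ 2) ^ 2 = 1 + 8 * (C ^ 2 * u ^ 2) + 16 * (C ^ 4 * u ^ 4) := by
        ring
      rw [e2]
      have e3 : 0 ≤ C ^ 4 * u ^ 2 := by positivity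
      linarith
    exact h4.trans (mul_le_mul_of_nonneg_left h1 (by positivity))
  calc (1 + s ^ 2) * (C / Real.exp u) * (1 + s ^ 2) = C * (1 + s ^ 2) ^ 2 / Real.exp u := by ring
    _ ≤ C * (384 * C ^ 4 * Real.exp u) / Real.exp u := by
        apply div_le_div_of_nonneg_right _ hepos.le
        exact mul_le_mul_of_nonneg_left h2 hC0.le
    _ = 384 * C ^ 5 := by field_simp

/-- domination -/
theorem dom (hO : OB C f) {a : ℝ} (ha : |a| ≤ 1 / (2 * C)) {h : ℝ → ℝ} (hc : Continuous h)
    (hh : ∀ s, |h s| ≤ (1 + s ^ 2) * (f s * Real.exp (|a| * |s|))) :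
    Integrable h ∧ ∫ s, |h s| ≤ cK C := by
  have hC := hO.one_le
  have hC0 : 0 < C := by linarith
  have hb : ∀ s, |h s| ≤ 384 * C ^ 5 * (1 + s ^ 2)⁻¹ := by
    intro s
    refine (hh s).trans (le_trans ?_ (poly_exp hC s))
    apply mul_le_mul_of_nonneg_left _ (by positivity)
    calc f s * Real.exp (|a| * |s|) ≤ (C * Real.exp (-|s| / C)) * Real.exp (|a| * |s|) :=
          mul_le_mul_of_nonneg_right (hO.tail s) (Real.exp_pos _).le
      _ = C * Real.exp (-|s| / C + |a| * |s|) := by rw [Real.exp_add]; ring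
      _ ≤ C * Real.exp (-|s| / (2 * C)) := by
          apply mul_le_mul_of_nonneg_left _ hC0.le
          apply Real.exp_le_exp.2
          have h1 : |a| * |s| ≤ 1 / (2 * C) * |s| := mul_le_mul_of_nonneg_right ha (abs_nonneg s)
          have h2 : -|s| / C + 1 / (2 * C) * |s| = -|s| / (2 * C) := by field_simp; ring
          linarith
  have hi2 : Integrable fun s : ℝ => 384 * C ^ 5 * (1 + s ^ 2)⁻¹ :=
    integrable_inv_one_add_sq.const_mul _
  have hi : Integrable h := hi2.mono' hc.aestronglyMeasurable (Eventually.of_forall fun s => hb s)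
  refine ⟨hi, ?_⟩
  calc ∫ s, |h s| ≤ ∫ s : ℝ, 384 * C ^ 5 * (1 + s ^ 2)⁻¹ := integral_mono hi.abs hi2 hb
    _ = cK C := by rw [integral_const_mul, integral_univ_inv_one_add_sq]; rfl

theorem abs_exp_sub_one (x : ℝ) : |Real.exp x - 1| ≤ |x| * Real.exp |x| := by
  rcases le_total 0 x with h | h
  · rw [abs_of_nonneg h, abs_of_nonneg (by linarith [Real.add_one_le_exp x])]
    have h1 := Real.add_one_le_exp (-x)
    have h2 : Real.exp x * Real.exp (-x) = 1 := by rw [← Real.exp_add]; simp
    have h3 := Real.exp_pos x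
    nlinarith
  · have h1 : Real.exp x ≤ 1 := Real.exp_le_one_iff.2 h
    rw [abs_of_nonpos h, abs_of_nonpos (by linarith)]
    have h2 := Real.add_one_le_exp x
    have h3 : 1 ≤ Real.exp (-x) := Real.one_le_exp (by linarith)
    nlinarith

/-- the facts on the tilts -/
structure Tilt (f : ℝ → ℝ) (C a : ℝ) : Prop where
  i0 : Integrable fun s => f s * Real.exp (a * s)
  i1 : Integrable fun s => s * (f s * Real.exp (a * s))
  z1 : 1 ≤ Z0 f a
  z2 : Z0 f a ≤ cK C
  m1 : |∫ s, s * (f s * Real.exp (a * s))| ≤ cK C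
  r1 : ∫ s in Ioi 0, s * (f s * Real.exp (a * s)) ≤ cK C
  l1 : ∫ s in Iic 0, -s * (f s * Real.exp (a * s)) ≤ cK C
  low : 1 / (2 * C) ≤ ∫ s, |s - (∫ s, s * (f s * Real.exp (a * s))) / Z0 f a| * (f s * Real.exp (a * s))

theorem tilt (hf : ND f) (hO : OB C f) {a : ℝ} (ha : |a| ≤ 1 / (4 * C * cK C)) : Tilt f C a := by
  have hC := hO.one_le
  have hC0 : 0 < C := by linarith
  have hK := one_le_cK hC
  have ha2 : |a| ≤ 1 / (2 * C) := by
    refine ha.trans ?_
    apply one_div_le_one_div_of_le (by positivity)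
    nlinarith
  have hfc := hf.cont
  have hexp : ∀ s : ℝ, Real.exp (a * s) ≤ Real.exp (|a| * |s|) := fun s => by
    apply Real.exp_le_exp.2
    rw [← abs_mul]; exact le_abs_self _
  have hone : ∀ s : ℝ, 1 ≤ Real.exp (|a| * |s|) := fun s => Real.one_le_exp (by positivity)
  have hsle : ∀ s : ℝ, |s| ≤ 1 + s ^ 2 := fun s => by
    rw [← sq_abs s]; nlinarith [sq_nonneg (|s| - 1), abs_nonneg s]
  have hfe : ∀ s, 0 < f s * Real.exp (a * s) := fun s => mul_pos (hf.pos s) (Real.exp_pos _)
  have hfe2 : ∀ s, f s * Real.exp (a * s) ≤ f s * Real.exp (|a| * |s|) := fun s =>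
    mul_le_mul_of_nonneg_left (hexp s) (hf.pos s).le
  -- domination
  have d0 := dom hO ha2 (h := fun s => f s * Real.exp (a * s)) (by fun_prop) (fun s => by
    rw [abs_of_pos (hfe s)]
    have := hfe2 s
    have h2 : 0 < f s * Real.exp (|a| * |s|) := (hfe s).trans_le this
    nlinarith [sq_nonneg s])
  have d1 := dom hO ha2 (h := fun s => s * (f s * Real.exp (a * s))) (by fun_prop) (fun s => by
    rw [abs_mul, abs_of_pos (hfe s)]
    exact mul_le_mul (hsle s) (hfe2 s) (hfe s).le (by positivity))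
  have d2 := dom hO ha2 (h := fun s => s ^ 2 * (f s * Real.exp (|a| * |s|))) (by fun_prop) (fun s => by
    have h2 : 0 < f s * Real.exp (|a| * |s|) := (hfe s).trans_le (hfe2 s)
    rw [abs_of_nonneg (by positivity)]
    exact mul_le_mul_of_nonneg_right (by linarith) h2.le)
  -- integrals of f
  have hif : Integrable f := hf.int0
  have hif1 : Integrable fun s => s * f s := by
    have d := dom hO ha2 (h := fun s => s * f s) (by fun_prop) (fun s => by
      rw [abs_mul, abs_of_pos (hf.pos s)]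
      apply mul_le_mul (hsle s) _ (hf.pos s).le (by positivity)
      have := hone s
      have := hf.pos s
      nlinarith)
    exact d.1
  have hiabs : Integrable fun s => |s| * f s := by
    refine hif1.abs.congr (Eventually.of_forall fun s => ?_)
    show |s * f s| = |s| * f s
    rw [abs_mul, abs_of_pos (hf.pos s)]
  have hz1 : 1 ≤ Z0 f a := by
    have h1 : ∫ s, (f s + a * (s * f s)) = 1 := by
      rw [integral_add hif (hif1.const_mul _), integral_const_mul, hf.mass, hf.mean]; ring
    rw [← h1]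
    apply integral_mono (hif.add (hif1.const_mul _)) d0.1
    intro s
    show f s + a * (s * f s) ≤ f s * Real.exp (a * s)
    have := Real.add_one_le_exp (a * s)
    have := hf.pos s
    nlinarith
  have hz2 : Z0 f a ≤ cK C := by
    refine le_trans (le_of_eq ?_) d0.2
    unfold Z0
    congr 1; ext s; rw [abs_of_pos (hfe s)]
  -- the remainder
  set R := ∫ s, |s| * (f s * |Real.exp (a * s) - 1|) with hR
  have hRb : ∀ s, |s| * (f s * |Real.exp (a * s) - 1|) ≤ |a| * (s ^ 2 * (f s * Real.exp (|a| * |s|))) := by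
    intro s
    have h1 := abs_exp_sub_one (a * s)
    rw [abs_mul a s] at h1
    have h2 := hf.pos s
    calc |s| * (f s * |Real.exp (a * s) - 1|) ≤ |s| * (f s * (|a| * |s| * Real.exp (|a| * |s|))) := by
          apply mul_le_mul_of_nonneg_left _ (abs_nonneg s)
          exact mul_le_mul_of_nonneg_left h1 h2.le
      _ = |a| * (|s| ^ 2 * (f s * Real.exp (|a| * |s|))) := by ring
      _ = _ := by rw [sq_abs]
  have hRi : Integrable fun s => |s| * (f s * |Real.exp (a * s) - 1|) := by
    apply (d2.1.const_mul |a|).mono' (by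
      apply Continuous.aestronglyMeasurable; fun_prop)
    refine Eventually.of_forall fun s => ?_
    rw [Real.norm_eq_abs, abs_of_nonneg (by
      have := hf.pos s
      positivity)]
    exact hRb s
  have hRle : R ≤ 1 / (4 * C) := by
    have h1 : R ≤ |a| * ∫ s, s ^ 2 * (f s * Real.exp (|a| * |s|)) := by
      rw [hR, ← integral_const_mul]
      exact integral_mono hRi (d2.1.const_mul _) hRb
    have h2 : ∫ s, s ^ 2 * (f s * Real.exp (|a| * |s|)) ≤ cK C :=
      (integral_mono d2.1 d2.1.abs fun s => le_abs_self _).trans d2.2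
    calc R ≤ |a| * cK C := h1.trans (mul_le_mul_of_nonneg_left h2 (abs_nonneg a))
      _ ≤ 1 / (4 * C * cK C) * cK C := mul_le_mul_of_nonneg_right ha (by linarith)
      _ = 1 / (4 * C) := by field_simp
  have hM : |∫ s, s * (f s * Real.exp (a * s))| ≤ R := by
    have h1 : ∫ s, s * (f s * Real.exp (a * s)) = ∫ s, s * (f s * (Real.exp (a * s) - 1)) := by
      have e : ∀ s, s * (f s * (Real.exp (a * s) - 1)) = s * (f s * Real.exp (a * s)) - s * f s :=
        fun s => by ring
      simp_rw [e]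
      rw [integral_sub d1.1 hif1, hf.mean, sub_zero]
    rw [h1]
    refine (abs_integral_le_integral_abs).trans (le_of_eq ?_)
    rw [hR]
    congr 1; ext s
    rw [abs_mul, abs_mul, abs_of_pos (hf.pos s)]
  have hA : 1 / C - R ≤ ∫ s, |s| * (f s * Real.exp (a * s)) := by
    have h1 : 1 / C - R ≤ ∫ s, (|s| * f s - |s| * (f s * |Real.exp (a * s) - 1|)) := by
      rw [integral_sub hiabs hRi]
      linarith [hO.m1]
    refine h1.trans ?_
    have hi1' : Integrable fun s => |s| * (f s * Real.exp (a * s)) := by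
      refine d1.1.abs.congr (Eventually.of_forall fun s => ?_)
      show |s * (f s * Real.exp (a * s))| = |s| * (f s * Real.exp (a * s))
      rw [abs_mul, abs_of_pos (hfe s)]
    apply integral_mono (hiabs.sub hRi) hi1'
    intro s
    show |s| * f s - |s| * (f s * |Real.exp (a * s) - 1|) ≤ |s| * (f s * Real.exp (a * s))
    have h2 : 1 - |Real.exp (a * s) - 1| ≤ Real.exp (a * s) := by
      have := neg_abs_le (Real.exp (a * s) - 1)
      linarith
    have h3 : 0 ≤ |s| * f s := mul_nonneg (abs_nonneg s) (hf.pos s).le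
    nlinarith
  have hi1' : Integrable fun s => |s| * (f s * Real.exp (a * s)) := by
    refine d1.1.abs.congr (Eventually.of_forall fun s => ?_)
    show |s * (f s * Real.exp (a * s))| = |s| * (f s * Real.exp (a * s))
    rw [abs_mul, abs_of_pos (hfe s)]
  have habs : ∫ s, |s| * (f s * Real.exp (a * s)) ≤ cK C := by
    refine le_trans (le_of_eq ?_) d1.2
    congr 1; ext s
    rw [abs_mul, abs_of_pos (hfe s)]
  refine ⟨d0.1, d1.1, hz1, hz2, ?_, ?_, ?_, ?_⟩
  · exact (abs_integral_le_integral_abs).trans d1.2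
  · calc ∫ s in Ioi 0, s * (f s * Real.exp (a * s)) ≤ ∫ s in Ioi 0, |s| * (f s * Real.exp (a * s)) := by
          apply setIntegral_mono d1.1.integrableOn hi1'.integrableOn
          intro s
          exact mul_le_mul_of_nonneg_right (le_abs_self s) (hfe s).le
      _ ≤ ∫ s, |s| * (f s * Real.exp (a * s)) :=
          setIntegral_le_integral hi1' (Eventually.of_forall fun s => mul_nonneg (abs_nonneg s) (hfe s).le)
      _ ≤ cK C := habs
  · have hn : Integrable fun s => -s * (f s * Real.exp (a * s)) := by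
      refine d1.1.neg.congr (Eventually.of_forall fun s => ?_)
      show -(s * (f s * Real.exp (a * s))) = -s * (f s * Real.exp (a * s))
      ring
    calc ∫ s in Iic 0, -s * (f s * Real.exp (a * s)) ≤ ∫ s in Iic 0, |s| * (f s * Real.exp (a * s)) := by
          apply setIntegral_mono hn.integrableOn hi1'.integrableOn
          intro s
          exact mul_le_mul_of_nonneg_right (neg_le_abs s) (hfe s).le
      _ ≤ ∫ s, |s| * (f s * Real.exp (a * s)) :=
          setIntegral_le_integral hi1' (Eventually.of_forall fun s => mul_nonneg (abs_nonneg s) (hfe s).le)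
      _ ≤ cK C := habs
  · set m := (∫ s, s * (f s * Real.exp (a * s))) / Z0 f a with hm
    have hz0 : 0 < Z0 f a := by linarith
    have h1 : ∫ s, (|s| * (f s * Real.exp (a * s)) - |m| * (f s * Real.exp (a * s))) ≤
        ∫ s, |s - m| * (f s * Real.exp (a * s)) := by
      have hism : Integrable fun s => |s - m| * (f s * Real.exp (a * s)) := by
        refine (int_sub_mul d0.1 d1.1 m).abs.congr (Eventually.of_forall fun s => ?_)
        show |(s - m) * (f s * Real.exp (a * s))| = |s - m| * (f s * Real.exp (a * s))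
        rw [abs_mul, abs_of_pos (hfe s)]
      apply integral_mono (hi1'.sub (d0.1.const_mul _)) hism
      intro s
      show |s| * (f s * Real.exp (a * s)) - |m| * (f s * Real.exp (a * s)) ≤ |s - m| * (f s * Real.exp (a * s))
      have h2 : |s| - |m| ≤ |s - m| := abs_sub_abs_le_abs_sub s m
      have h3 := hfe s
      nlinarith
    rw [integral_sub hi1' (d0.1.const_mul _), integral_const_mul] at h1
    have h2 : |m| * ∫ s, f s * Real.exp (a * s) = |∫ s, s * (f s * Real.exp (a * s))| := by
      show |m| * Z0 f a = _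
      rw [hm, abs_div, abs_of_pos hz0, div_mul_cancel₀ _ hz0.ne']
    rw [h2] at h1
    have h3 : 1 / (2 * C) = 1 / C - 1 / (4 * C) - 1 / (4 * C) := by field_simp; ring
    linarith

end Pool.Agent.Y401.RG
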